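import Pool.Agent.Folk330.Final

/-!
# The edge Folkman number `F_e(3,3;4)` is at most 330

The graph has 336 vertices before the removal of six of them: the pairs of a point of the projective
line over the field with 13 elements and a nonzero vector of the plane over the field with 5
elements. Vertices over different points are adjacent when the determinant of their vectors is the
image of the determinant of the points (of fixed representatives) under the character of order 4
modulo 13 with values modulo 5; vertices over the same point are adjacent when the determinant of
their vectors is 1 or -1. The group `SL(2, R)`, with `R` the ring of integers modulo 65, acts on it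
with two orbits of edges and five orbits of triangles, and the graph has no `K_4`.

Weighting the five orbits of triangles with the weights 6, 2, 7, 17, 18, the number of triangles
that are not monochromatic in a colouring of the edges is bounded through the least eigenvalue of an
operator on the edges, and the bound is below the total weight by more than four per cent. Averaging
over the choice of six vertices shows that some six vertices can be removed.

The eigenvalue bound is proved by the trace method: the values at a base edge of the iterates of the
operator on the indicator function of that edge (the first 86 iterates, computed by the kernel on the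
double cosets of `SL(2, R)`) exclude an eigenvalue at most `237.16`.
-/

namespace Pool.Agent.Results.MP_0f8cd4_co.Folkman330

/-- `G` is a union of two triangle-free graphs. -/
def IsUnionOfTwoTriangleFree {V : Type*} (G : SimpleGraph V) : Prop :=
  ∃ G₁ G₂ : SimpleGraph V, G₁.CliqueFree 3 ∧ G₂.CliqueFree 3 ∧ G₁ ⊔ G₂ = G

/-- The edge Folkman number: the least positive `n` such that some `K_4`-free graph on `n`
vertices is not a union of two triangle-free graphs. -/
noncomputable def edgeFolkman : ℕ :=
  sInf {n : ℕ | 0 < n ∧
    ∃ G : SimpleGraph (Fin n), G.CliqueFree 4 ∧ ¬ IsUnionOfTwoTriangleFree G}

theorem exists_graph :
    ∃ G : SimpleGraph (Fin 330), G.CliqueFree 4 ∧ ¬ IsUnionOfTwoTriangleFree G := by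
  obtain ⟨G, h1, h2⟩ := Pool.Agent.Folk330.exists_graph
  exact ⟨G, h1, h2⟩

/-- There is a `K_4`-free graph on 330 vertices that is not a union of two triangle-free graphs;
in particular `F_e(3,3;4) ≤ 330`. -/
theorem result :
    (∃ G : SimpleGraph (Fin 330), G.CliqueFree 4 ∧ ¬ IsUnionOfTwoTriangleFree G) ∧
      edgeFolkman ≤ 330 :=
  ⟨exists_graph, Nat.sInf_le ⟨by norm_num, exists_graph⟩⟩

end Pool.Agent.Results.MP_0f8cd4_co.Folkman330
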